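import Pool.Agent.H35.CG.PolyA
import Pool.Agent.H45.CG.Iface

/-! Part POLY of the project CG (helper45). -/

set_option autoImplicit false

namespace Pool.Agent.H35.CG

theorem part : CG45.StmtPOLY := poly

end Pool.Agent.H35.CG
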