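import Mathlib

/-! Part POLY of the project CG (helper45). -/

set_option autoImplicit false

namespace Pool.Agent.H35.CG

open Polynomial Finset

/-- domination of coefficients -/
def Dom (p q : ℝ[X]) : Prop := ∀ k, |p.coeff k| ≤ q.coeff k

lemma Dom.nonneg {p q : ℝ[X]} (h : Dom p q) (k : ℕ) : 0 ≤ q.coeff k := (abs_nonneg _).trans (h k)

lemma Dom.mul {p q p' q' : ℝ[X]} (h : Dom p q) (h' : Dom p' q') : Dom (p * p') (q * q') := by
  intro k
  rw [coeff_mul, coeff_mul]
  refine (abs_sum_le_sum_abs _ _).trans (sum_le_sum fun x _ => ?_)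
  rw [abs_mul]
  exact mul_le_mul (h _) (h' _) (abs_nonneg _) (h.nonneg _)

lemma Dom.add {p q p' q' : ℝ[X]} (h : Dom p q) (h' : Dom p' q') : Dom (p + p') (q + q') := by
  intro k
  rw [coeff_add, coeff_add]
  exact (abs_add_le _ _).trans (add_le_add (h k) (h' k))

lemma dom_one : Dom 1 1 := by
  intro k
  rw [coeff_one]
  split_ifs <;> simp

lemma Dom.pow {p q : ℝ[X]} (h : Dom p q) (n : ℕ) : Dom (p ^ n) (q ^ n) := by
  induction n with
  | zero => simpa using dom_one
  | succ n ih => rw [pow_succ, pow_succ]; exact ih.mul h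

lemma dom_X : Dom X X := by
  intro k
  rw [coeff_X]
  split_ifs <;> simp

lemma dom_nat (n : ℕ) : Dom (n : ℝ[X]) (n : ℝ[X]) := by
  intro k
  rw [← C_eq_natCast, coeff_C]
  split_ifs <;> simp

lemma dom_sub : Dom (1 - X) (1 + X) := by
  intro k
  rw [coeff_sub, coeff_add, sub_eq_add_neg]
  refine (abs_add_le _ _).trans ?_
  rw [abs_neg]
  exact add_le_add (dom_one k) (dom_X k)

lemma dom_zero : Dom 0 0 := by intro k; simp

lemma dom_sum {s : Finset ℕ} {p q : ℕ → ℝ[X]} (h : ∀ i ∈ s, Dom (p i) (q i)) :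
    Dom (∑ i ∈ s, p i) (∑ i ∈ s, q i) := by
  classical
  induction s using Finset.induction_on with
  | empty => simpa using dom_zero
  | insert a s ha ih =>
    rw [sum_insert ha, sum_insert ha]
    exact (h a (mem_insert_self a s)).add (ih fun i hi => h i (mem_insert_of_mem hi))

/-- the terms -/
noncomputable def tp (N i : ℕ) : ℝ[X] := (N.choose i : ℝ[X]) * X ^ i * (1 + X) ^ (N - i)

lemma bern_eq (N i : ℕ) : bernsteinPolynomial ℝ N i =
    (N.choose i : ℝ[X]) * X ^ i * (1 - X) ^ (N - i) := by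
  rw [bernsteinPolynomial]

lemma dom_term (N i : ℕ) : Dom (bernsteinPolynomial ℝ N i) (tp N i) := by
  rw [bern_eq, tp]
  exact ((dom_nat _).mul (dom_X.pow i)).mul (dom_sub.pow _)

lemma deg_term (N i : ℕ) (hi : i ≤ N) (q : ℝ[X]) (hq : q.natDegree ≤ 1) :
    ((N.choose i : ℝ[X]) * X ^ i * q ^ (N - i)).natDegree ≤ N := by
  have h1 : ((N.choose i : ℝ[X]) * X ^ i).natDegree ≤ i := by
    refine natDegree_mul_le.trans ?_
    rw [natDegree_natCast, zero_add]
    exact natDegree_X_pow_le i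
  have h2 : (q ^ (N - i)).natDegree ≤ N - i := by
    refine natDegree_pow_le.trans ?_
    calc (N - i) * q.natDegree ≤ (N - i) * 1 := Nat.mul_le_mul_left _ hq
      _ = N - i := mul_one _
  exact natDegree_mul_le.trans (by omega)

lemma bern_nonneg {x : ℝ} (h0 : 0 ≤ x) (h1 : x ≤ 1) (N i : ℕ) :
    0 ≤ (bernsteinPolynomial ℝ N i).eval x := by
  rw [bern_eq]
  simp only [eval_mul, eval_natCast, eval_pow, eval_X, eval_sub, eval_one]
  have : 0 ≤ 1 - x := by linarith
  positivity

lemma bern_sum (x : ℝ) (N : ℕ) : ∑ i ∈ range (N + 1), (bernsteinPolynomial ℝ N i).eval x = 1 := by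
  have h := bernsteinPolynomial.sum ℝ N
  have h2 := congrArg (eval x) h
  rw [eval_finset_sum, eval_one] at h2
  exact h2

lemma bern_var (x : ℝ) (N : ℕ) : ∑ i ∈ range (N + 1), (N * x - i) ^ 2 *
    (bernsteinPolynomial ℝ N i).eval x = N * x * (1 - x) := by
  have h := bernsteinPolynomial.variance ℝ N
  have h2 := congrArg (eval x) h
  rw [eval_finset_sum] at h2
  simp only [eval_mul, eval_pow, eval_sub, eval_natCast, eval_X, eval_one, eval_smul,
    nsmul_eq_mul] at h2
  exact h2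

theorem poly (N s : ℕ) (hs : 1 ≤ s) (hsN : s ≤ N) : ∃ f g : Polynomial ℝ,
    f.natDegree ≤ N ∧ g.natDegree ≤ N ∧ (∀ k, |f.coeff k| ≤ g.coeff k) ∧
    (∀ x : ℝ, 0 ≤ x → x ≤ 1 → 0 ≤ f.eval x ∧ f.eval x ≤ 1) ∧
    (∀ x : ℝ, x ≤ 1 → 2 * (s : ℝ) ≤ N * x → 8 ≤ N * x → 1 / 2 ≤ f.eval x) ∧
    (∀ y : ℝ, 0 ≤ y → g.eval y ≤ Real.exp (-2 * s) * Real.exp ((Real.exp 2 + 1) * y * N)) ∧
    g.eval 1 ≤ 3 ^ N := by
  refine ⟨∑ i ∈ Ico s (N + 1), bernsteinPolynomial ℝ N i, ∑ i ∈ Ico s (N + 1), tp N i, ?_, ?_,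
    dom_sum fun i _ => dom_term N i, ?_, ?_, ?_, ?_⟩
  · refine natDegree_sum_le_of_forall_le _ _ fun i hi => ?_
    rw [mem_Ico] at hi
    rw [bern_eq]
    refine deg_term N i (by omega) _ ?_
    refine (natDegree_sub_le _ _).trans ?_
    simp
  · refine natDegree_sum_le_of_forall_le _ _ fun i hi => ?_
    rw [mem_Ico] at hi
    refine deg_term N i (by omega) _ ?_
    refine (natDegree_add_le _ _).trans ?_
    simp
  · intro x h0 h1
    rw [eval_finset_sum]
    constructor
    · exact sum_nonneg fun i _ => bern_nonneg h0 h1 N i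
    · rw [← bern_sum x N, range_eq_Ico]
      exact sum_le_sum_of_subset_of_nonneg (Ico_subset_Ico_left (Nat.zero_le s))
        fun i _ _ => bern_nonneg h0 h1 N i
  · intro x h1 h2 h8
    have hN0 : (0 : ℝ) ≤ N := Nat.cast_nonneg N
    have h0 : 0 ≤ x := by
      by_contra hcon
      push Not at hcon
      nlinarith
    rw [eval_finset_sum]
    have hsplit : ∑ i ∈ Ico 0 s, (bernsteinPolynomial ℝ N i).eval x +
        ∑ i ∈ Ico s (N + 1), (bernsteinPolynomial ℝ N i).eval x = 1 := by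
      rw [sum_Ico_consecutive _ (Nat.zero_le s) (by omega), ← range_eq_Ico, bern_sum]
    have hvar := bern_var x N
    have hle : (N * x / 2) ^ 2 * ∑ i ∈ Ico 0 s, (bernsteinPolynomial ℝ N i).eval x ≤ N * x := by
      rw [mul_sum]
      calc ∑ i ∈ Ico 0 s, (N * x / 2) ^ 2 * (bernsteinPolynomial ℝ N i).eval x ≤
          ∑ i ∈ Ico 0 s, (N * x - i) ^ 2 * (bernsteinPolynomial ℝ N i).eval x := by
            refine sum_le_sum fun i hi => ?_
            rw [mem_Ico] at hi
            have hi' : (i : ℝ) ≤ s := by exact_mod_cast hi.2.le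
            exact mul_le_mul_of_nonneg_right (pow_le_pow_left₀ (by linarith) (by linarith) 2)
              (bern_nonneg h0 h1 N i)
        _ ≤ ∑ i ∈ range (N + 1), (N * x - i) ^ 2 * (bernsteinPolynomial ℝ N i).eval x := by
            rw [range_eq_Ico]
            exact sum_le_sum_of_subset_of_nonneg (Ico_subset_Ico_right (by omega))
              fun i _ _ => mul_nonneg (sq_nonneg _) (bern_nonneg h0 h1 N i)
        _ = N * x * (1 - x) := hvar
        _ ≤ N * x := by nlinarith
    set A := ∑ i ∈ Ico 0 s, (bernsteinPolynomial ℝ N i).eval x with hA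
    have hA0 : 0 ≤ A := sum_nonneg fun i _ => bern_nonneg h0 h1 N i
    have hA1 : A ≤ 1 / 2 := by
      by_contra hcon
      push Not at hcon
      have e1 : (N * x) * (N * x * A) ≤ (N * x) * 4 := by nlinarith
      have e2 : N * x * A ≤ 4 := le_of_mul_le_mul_left e1 (by linarith)
      nlinarith
    linarith
  · intro y hy
    rw [eval_finset_sum]
    have hz : 0 < Real.exp 2 := Real.exp_pos 2
    have hz1 : 1 ≤ Real.exp 2 := Real.one_le_exp (by norm_num)
    have e0 : Real.exp (-2 * s) = (Real.exp 2 ^ s)⁻¹ := by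
      rw [← Real.exp_nat_mul, ← Real.exp_neg]
      congr 1
      ring
    rw [e0]
    have h1 : ∀ i ∈ Ico s (N + 1), (tp N i).eval y ≤ (Real.exp 2 ^ s)⁻¹ *
        ((Real.exp 2 * y) ^ i * (1 + y) ^ (N - i) * (N.choose i : ℝ)) := by
      intro i hi
      rw [mem_Ico] at hi
      simp only [tp, eval_mul, eval_natCast, eval_pow, eval_X, eval_add, eval_one]
      have h2 : Real.exp 2 ^ s ≤ Real.exp 2 ^ i := pow_le_pow_right₀ hz1 hi.1
      have h3 : (1 : ℝ) ≤ (Real.exp 2 ^ s)⁻¹ * Real.exp 2 ^ i := by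
        rw [← div_eq_inv_mul, one_le_div (by positivity)]
        exact h2
      have h4 : 0 ≤ (N.choose i : ℝ) * y ^ i * (1 + y) ^ (N - i) := by positivity
      calc (N.choose i : ℝ) * y ^ i * (1 + y) ^ (N - i) ≤
          ((Real.exp 2 ^ s)⁻¹ * Real.exp 2 ^ i) * ((N.choose i : ℝ) * y ^ i * (1 + y) ^ (N - i)) :=
            le_mul_of_one_le_left h4 h3
        _ = _ := by rw [mul_pow]; ring
    calc ∑ i ∈ Ico s (N + 1), (tp N i).eval y ≤ ∑ i ∈ Ico s (N + 1), (Real.exp 2 ^ s)⁻¹ *
        ((Real.exp 2 * y) ^ i * (1 + y) ^ (N - i) * (N.choose i : ℝ)) := sum_le_sum h1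
      _ ≤ ∑ i ∈ range (N + 1), (Real.exp 2 ^ s)⁻¹ *
        ((Real.exp 2 * y) ^ i * (1 + y) ^ (N - i) * (N.choose i : ℝ)) := by
          rw [range_eq_Ico]
          exact sum_le_sum_of_subset_of_nonneg (Ico_subset_Ico_left (Nat.zero_le s))
            fun i _ _ => by positivity
      _ = (Real.exp 2 ^ s)⁻¹ * (Real.exp 2 * y + (1 + y)) ^ N := by
          rw [← mul_sum, add_pow]
      _ ≤ (Real.exp 2 ^ s)⁻¹ * Real.exp ((Real.exp 2 + 1) * y * N) := by
          apply mul_le_mul_of_nonneg_left _ (by positivity)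
          rw [show (Real.exp 2 + 1) * y * N = N * ((Real.exp 2 + 1) * y) by ring,
            Real.exp_nat_mul]
          apply pow_le_pow_left₀ (by positivity)
          have := Real.add_one_le_exp ((Real.exp 2 + 1) * y)
          linarith
  · rw [eval_finset_sum]
    calc ∑ i ∈ Ico s (N + 1), (tp N i).eval 1 ≤ ∑ i ∈ range (N + 1), (tp N i).eval 1 := by
          rw [range_eq_Ico]
          refine sum_le_sum_of_subset_of_nonneg (Ico_subset_Ico_left (Nat.zero_le s))
            fun i _ _ => ?_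
          simp only [tp, eval_mul, eval_natCast, eval_pow, eval_X, eval_add, eval_one]
          positivity
      _ = ∑ i ∈ range (N + 1), (1 : ℝ) ^ i * 2 ^ (N - i) * (N.choose i : ℝ) := by
          refine sum_congr rfl fun i _ => ?_
          simp only [tp, eval_mul, eval_natCast, eval_pow, eval_X, eval_add, eval_one]
          norm_num
          ring
      _ = (1 + 2) ^ N := (add_pow _ _ _).symm
      _ ≤ 3 ^ N := by norm_num

end Pool.Agent.H35.CG
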